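import Mathlib

/-!
# MP_93d35c: the inequality `π(xy)² ≤ π(x²) π(y²)` fails for arbitrarily large `x` and `y`

If the inequality held for all `x, y ≥ n₀`, then the pairs `(y + 2, y)` would show that the number of
primes between consecutive squares is strictly increasing from some point on, so that
`π(N²) ≥ N² / 2 - O(N)`; but `π(m) ≤ m / 3 + 3`.
-/

set_option autoImplicit false

namespace Pool.Agent.Results.MP_93d35c_nt.FailsInfinitelyOften

open Nat

/-- `(y + 1) ^ 2` is not prime, so `π (y (y + 2)) = π ((y + 1) ^ 2)`. -/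
lemma pi_mul_add_two (y : ℕ) :
    Nat.primeCounting ((y + 2) * y) = Nat.primeCounting ((y + 1) ^ 2) := by
  have h1 : (y + 1) ^ 2 = (y + 2) * y + 1 := by ring
  rw [h1]
  unfold Nat.primeCounting Nat.primeCounting'
  rw [Nat.count_succ (p := Nat.Prime) (n := (y + 2) * y + 1)]
  have h2 : ¬ Nat.Prime ((y + 2) * y + 1) := by
    rw [← h1]
    exact Nat.Prime.not_prime_pow (le_refl 2)
  simp [h2]

lemma pi_le (m : ℕ) : 3 * Nat.primeCounting m ≤ m + 9 := by
  rcases Nat.lt_or_ge m 6 with h | h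
  · interval_cases m <;> decide
  · have h1 := Nat.primeCounting'_add_le (a := 6) (k := 7) (by norm_num) (by norm_num) (m - 6)
    have h2 : 7 + (m - 6) = m + 1 := by omega
    have h3 : Nat.totient 6 = 2 := by decide
    have h4 : Nat.primeCounting' 7 = 3 := by decide
    rw [h2, h3, h4] at h1
    have h5 : Nat.primeCounting m = Nat.primeCounting' (m + 1) := rfl
    rw [h5]
    omega

theorem result : ∀ n₀ : ℕ, ∃ x y : ℕ, n₀ ≤ x ∧ n₀ ≤ y ∧
    Nat.primeCounting (x ^ 2) * Nat.primeCounting (y ^ 2) < Nat.primeCounting (x * y) ^ 2 := by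
  intro n₀
  by_contra hcon
  push Not at hcon
  -- the numbers `A y = π (y²)`
  set A : ℕ → ℕ := fun y => Nat.primeCounting (y ^ 2) with hA
  have hmono : ∀ y, A y ≤ A (y + 1) := fun y =>
    Nat.monotone_primeCounting (Nat.pow_le_pow_left (Nat.le_succ y) 2)
  have hstep : ∀ y, n₀ ≤ y → A (y + 1) ^ 2 ≤ A (y + 2) * A y := by
    intro y hy
    have h := hcon (y + 2) y (by omega) hy
    rwa [pi_mul_add_two] at h
  obtain ⟨p, hp1, hp⟩ := Nat.exists_infinite_primes (n₀ ^ 2 + 1)
  set y₀ := Nat.sqrt p with hy₀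
  have hle : y₀ ^ 2 ≤ p := by rw [sq]; exact Nat.sqrt_le p
  have hlt : p < (y₀ + 1) ^ 2 := Nat.lt_succ_sqrt' p
  have hn : n₀ ≤ y₀ := by
    rw [hy₀, Nat.le_sqrt']
    omega
  have hne : y₀ ^ 2 ≠ p := by
    intro h
    rw [← h] at hp
    exact Nat.Prime.not_prime_pow (le_refl 2) hp
  have hfirst : A y₀ + 1 ≤ A (y₀ + 1) := by
    have h1 : Nat.primeCounting (y₀ ^ 2) ≤ Nat.primeCounting' p :=
      Nat.monotone_primeCounting' (by omega)
    have h2 : Nat.primeCounting p = Nat.primeCounting' p + 1 := by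
      unfold Nat.primeCounting Nat.primeCounting'
      rw [Nat.count_succ]
      simp [hp]
    have h3 : Nat.primeCounting p ≤ Nat.primeCounting ((y₀ + 1) ^ 2) :=
      Nat.monotone_primeCounting hlt.le
    show Nat.primeCounting (y₀ ^ 2) + 1 ≤ Nat.primeCounting ((y₀ + 1) ^ 2)
    omega
  have hinc : ∀ j : ℕ, A (y₀ + j) + (j + 1) ≤ A (y₀ + j + 1) := by
    intro j
    induction j with
    | zero => simpa using hfirst
    | succ j ih =>
      have h := hstep (y₀ + j) (by omega)
      have h1 : y₀ + (j + 1) = y₀ + j + 1 := by ring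
      rw [h1]
      by_contra hlt'
      push Not at hlt'
      obtain ⟨d, hd⟩ := Nat.exists_eq_add_of_le ih
      have h2 : A (y₀ + j + 2) ≤ A (y₀ + j + 1) + (j + 1) := by
        show A (y₀ + j + 1 + 1) ≤ _
        omega
      have h3 : A (y₀ + j + 1) ^ 2 ≤ (A (y₀ + j + 1) + (j + 1)) * A (y₀ + j) :=
        h.trans (Nat.mul_le_mul_right _ h2)
      rw [hd] at h3
      nlinarith [h3]
  have hsum : ∀ j : ℕ, j * (j + 1) ≤ 2 * A (y₀ + j) := by
    intro j
    induction j with
    | zero => simp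
    | succ j ih =>
      have h := hinc j
      have h1 : y₀ + (j + 1) = y₀ + j + 1 := by ring
      rw [h1]
      nlinarith [h, ih]
  have h1 := hsum (5 * y₀ + 5)
  have h2 := pi_le ((y₀ + (5 * y₀ + 5)) ^ 2)
  have h3 : A (y₀ + (5 * y₀ + 5)) = Nat.primeCounting ((y₀ + (5 * y₀ + 5)) ^ 2) := rfl
  rw [← h3] at h2
  nlinarith [h1, h2]

end Pool.Agent.Results.MP_93d35c_nt.FailsInfinitelyOften
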